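import Mathlib

/-!
# A finite ordered set with the fixed point property whose iterated clique graphs do not collapse
(MP_c7efa6_co, Q1)

The ordered set is the face poset of the hemi-octahedron, a regular cell decomposition of the
projective plane with 3 vertices, 6 edges and 4 triangles.  Its order complex is rationally acyclic,
which is the topological reason for the fixed point property (here checked by a finite search).
On the other hand the first cohomology group with coefficients in `ℤ/2` of its order complex, that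
is, of the clique complex of its comparability graph, is not zero; and a non-zero class of degree one
of the clique complex of a graph `G` yields a non-zero class of the clique complex of `K(G)`.
-/

set_option autoImplicit false

namespace Pool.Agent.Results.MP_c7efa6_co.FixedPointNotCollapsing

/-- A simple graph together with its vertex type. -/
structure Gr where
  /-- the vertex type -/
  V : Type
  /-- the graph -/
  G : SimpleGraph V

/-- The clique graph `K(X)`: its vertices are the maximal (under inclusion) cliques of `X`; two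
distinct maximal cliques are adjacent iff they share at least one vertex. -/
def K (X : Gr) : Gr where
  V := {s : Set X.V // Maximal (fun t : Set X.V => X.G.IsClique t) s}
  G :=
    { Adj := fun s t => s ≠ t ∧ (s.1 ∩ t.1).Nonempty
      symm := ⟨fun s t h => ⟨h.1.symm, by rw [Set.inter_comm]; exact h.2⟩⟩
      loopless := ⟨fun _ h => h.1 rfl⟩ }

/-- The comparability graph of an ordered set. -/
def comparability (P : Type) [PartialOrder P] : Gr where
  V := P
  G :=
    { Adj := fun a b => a ≠ b ∧ (a ≤ b ∨ b ≤ a)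
      symm := ⟨fun _ _ h => ⟨h.1.symm, h.2.symm⟩⟩
      loopless := ⟨fun _ h => h.1 rfl⟩ }

/-! ### Classes of degree one -/

/-- adjacent or equal -/
def Gr.R (X : Gr) (x y : X.V) : Prop := x = y ∨ X.G.Adj x y

lemma Gr.R.symm {X : Gr} {x y : X.V} (h : X.R x y) : X.R y x := by
  rcases h with h | h
  · exact Or.inl h.symm
  · exact Or.inr h.symm

/-- `X` carries a one-cocycle with values in `ℤ/2` that is not a coboundary. -/
def Gr.HasClass (X : Gr) : Prop :=
  ∃ s : X.V → X.V → ZMod 2,
    (∀ x y z, X.R x y → X.R y z → X.R x z → s x y + s y z = s x z) ∧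
      ¬ ∃ t : X.V → ZMod 2, ∀ x y, X.R x y → s x y = t x + t y

lemma exists_maximal_clique (X : Gr) (s : Set X.V) (hs : X.G.IsClique s) :
    ∃ Q : (K X).V, s ⊆ Q.1 := by
  obtain ⟨m, hsm, hm⟩ := zorn_subset_nonempty {t : Set X.V | X.G.IsClique t} (by
    intro c hc hchain _
    refine ⟨⋃₀ c, ?_, fun t ht => Set.subset_sUnion_of_mem ht⟩
    intro x hx y hy hxy
    obtain ⟨t, ht, hxt⟩ := hx
    obtain ⟨u, hu, hyu⟩ := hy
    rcases hchain.total ht hu with h | h
    · exact hc hu (h hxt) hyu hxy
    · exact hc ht hxt (h hyu) hxy) s hs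
  exact ⟨⟨m, hm⟩, hsm⟩

lemma rel_of_mem {X : Gr} (Q : (K X).V) {x y : X.V} (hx : x ∈ Q.1) (hy : y ∈ Q.1) : X.R x y := by
  by_cases h : x = y
  · exact Or.inl h
  · exact Or.inr (Q.2.1 hx hy h)

lemma nonempty_of_max {X : Gr} (x : X.V) (Q : (K X).V) : Q.1.Nonempty := by
  by_contra h
  rw [Set.not_nonempty_iff_eq_empty] at h
  have h1 : X.G.IsClique {x} := by simp
  have h2 : Q.1 ≤ {x} := by rw [h]; exact Set.empty_subset _
  have h3 := Q.2.2 h1 h2
  rw [h] at h3
  exact h3 rfl

lemma rel_iff {X : Gr} (Q Q' : (K X).V) (x : X.V) :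
    (K X).R Q Q' ↔ (Q.1 ∩ Q'.1).Nonempty := by
  constructor
  · rintro (h | h)
    · subst h
      rw [Set.inter_self]
      exact nonempty_of_max x Q
    · exact h.2
  · intro h
    by_cases h' : Q = Q'
    · exact Or.inl h'
    · exact Or.inr ⟨h', h⟩

/-- a class of degree one on `X` gives one on the clique graph -/
theorem HasClass.step {X : Gr} (h : X.HasClass) : (K X).HasClass := by
  classical
  obtain ⟨s, hs, hns⟩ := h
  have hne : Nonempty X.V := by
    by_contra h0
    rw [not_nonempty_iff] at h0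
    exact hns ⟨fun _ => 0, fun x => isEmptyElim x⟩
  obtain ⟨x0⟩ := hne
  have hv : ∀ Q : (K X).V, ∃ x, x ∈ Q.1 := fun Q => nonempty_of_max x0 Q
  choose v hv using hv
  let S : (K X).V → (K X).V → ZMod 2 := fun Q Q' =>
    if h : (Q.1 ∩ Q'.1).Nonempty then s (v Q) h.some + s h.some (v Q') else 0
  have two : ∀ a : ZMod 2, a + a = 0 := by decide
  have s_self : ∀ x, s x x = 0 := by
    intro x
    have := hs x x x (Or.inl rfl) (Or.inl rfl) (Or.inl rfl)
    simpa using this
  have s_symm : ∀ x y, X.R x y → s x y = s y x := by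
    intro x y hxy
    have h1 := hs x y x hxy hxy.symm (Or.inl rfl)
    rw [s_self] at h1
    have h2 := two (s y x)
    have : s x y = s x y + (s y x + s y x) := by rw [h2, add_zero]
    rw [this, ← add_assoc, h1, zero_add]
  have hS : ∀ Q Q' : (K X).V, ∀ x, x ∈ Q.1 → x ∈ Q'.1 → S Q Q' = s (v Q) x + s x (v Q') := by
    intro Q Q' x hx hx'
    have hne : (Q.1 ∩ Q'.1).Nonempty := ⟨x, hx, hx'⟩
    show (if h : (Q.1 ∩ Q'.1).Nonempty then s (v Q) h.some + s h.some (v Q') else 0) = _
    rw [dif_pos hne]
    obtain ⟨hy, hy'⟩ := hne.some_mem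
    set y := hne.some
    have e1 := hs (v Q) y x (rel_of_mem Q (hv Q) hy) (rel_of_mem Q hy hx) (rel_of_mem Q (hv Q) hx)
    have e2 := hs y x (v Q') (rel_of_mem Q' hy' hx') (rel_of_mem Q' hx' (hv Q'))
      (rel_of_mem Q' hy' (hv Q'))
    rw [← e1, ← e2]
    ring
  refine ⟨S, ?_, ?_⟩
  · intro Q1 Q2 Q3 h12 h23 h13
    rw [rel_iff _ _ x0] at h12 h23 h13
    obtain ⟨a, ha1, ha2⟩ := h12
    obtain ⟨b, hb2, hb3⟩ := h23
    obtain ⟨c, hc1, hc3⟩ := h13
    rw [hS Q1 Q2 a ha1 ha2, hS Q2 Q3 b hb2 hb3, hS Q1 Q3 c hc1 hc3]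
    have r1 := fun {x y : X.V} (hx : x ∈ Q1.1) (hy : y ∈ Q1.1) => rel_of_mem Q1 hx hy
    have r2 := fun {x y : X.V} (hx : x ∈ Q2.1) (hy : y ∈ Q2.1) => rel_of_mem Q2 hx hy
    have r3 := fun {x y : X.V} (hx : x ∈ Q3.1) (hy : y ∈ Q3.1) => rel_of_mem Q3 hx hy
    -- in Q2
    have e1 := hs a (v Q2) b (r2 ha2 (hv Q2)) (r2 (hv Q2) hb2) (r2 ha2 hb2)
    -- triangle a b c
    have e2 := hs a b c (r2 ha2 hb2) (r3 hb3 hc3) (r1 ha1 hc1)
    -- in Q1
    have e3 := hs (v Q1) a c (r1 (hv Q1) ha1) (r1 ha1 hc1) (r1 (hv Q1) hc1)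
    -- in Q3
    have e4 := hs b c (v Q3) (r3 hb3 hc3) (r3 hc3 (hv Q3)) (r3 hb3 (hv Q3))
    rw [← e3, ← e4, ← e2, ← e1]
    ring
  · rintro ⟨t, ht⟩
    apply hns
    have key : ∀ x : X.V, ∃ a : ZMod 2, ∀ Q : (K X).V, x ∈ Q.1 → t Q + s (v Q) x = a := by
      intro x
      obtain ⟨Q0, hQ0⟩ := exists_maximal_clique X {x} (by simp)
      have hx0 : x ∈ Q0.1 := hQ0 rfl
      refine ⟨t Q0 + s (v Q0) x, ?_⟩
      intro Q hx
      have h1 := ht Q Q0 ((rel_iff _ _ x0).2 ⟨x, hx, hx0⟩)
      rw [hS Q Q0 x hx hx0, s_symm x (v Q0) (rel_of_mem Q0 hx0 (hv Q0))] at h1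
      have h2 := two (t Q)
      have h3 := two (s (v Q0) x)
      linear_combination h1 + h2 - h3
    choose T hT using key
    refine ⟨T, ?_⟩
    intro x y hxy
    have hcl : X.G.IsClique {x, y} := by
      rcases hxy with h | h
      · subst h; simp
      · intro a ha b hb hab
        rcases ha with rfl | ha <;> rcases hb with rfl | hb
        · exact absurd rfl hab
        · rw [Set.mem_singleton_iff] at hb; subst hb; exact h
        · rw [Set.mem_singleton_iff] at ha; subst ha; exact h.symm
        · rw [Set.mem_singleton_iff] at ha hb; exact absurd (ha.trans hb.symm) hab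
    obtain ⟨Q, hQ⟩ := exists_maximal_clique X {x, y} hcl
    have hx : x ∈ Q.1 := hQ (by simp)
    have hy : y ∈ Q.1 := hQ (by simp)
    rw [← hT x Q hx, ← hT y Q hy]
    have e := hs (v Q) x y (rel_of_mem Q (hv Q) hx) (rel_of_mem Q hx hy) (rel_of_mem Q (hv Q) hy)
    have h1 := two (t Q)
    have h2 := two (s (v Q) x)
    linear_combination e - h1 - h2

theorem HasClass.iterate {X : Gr} (h : X.HasClass) : ∀ n : ℕ, (K^[n] X).HasClass
  | 0 => h
  | n + 1 => by
    rw [Function.iterate_succ_apply']
    exact HasClass.step (HasClass.iterate h n)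

theorem HasClass.nontrivial {X : Gr} (h : X.HasClass) : Nontrivial X.V := by
  rw [← not_subsingleton_iff_nontrivial]
  intro hsub
  obtain ⟨s, hs, hns⟩ := h
  refine hns ⟨fun _ => 0, fun x y _ => ?_⟩
  have hxy : x = y := Subsingleton.elim x y
  subst hxy
  have := hs x x x (Or.inl rfl) (Or.inl rfl) (Or.inl rfl)
  simpa using this

/-! ### The ordered set -/

/-- The face poset of the hemi-octahedron: `0, 1, 2` are the vertices, `3, …, 8` the edges and
`9, …, 12` the triangles. -/
def P : Type := Fin 13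

instance : Fintype P := inferInstanceAs (Fintype (Fin 13))
instance : DecidableEq P := inferInstanceAs (DecidableEq (Fin 13))
instance : Nonempty P := ⟨(0 : Fin 13)⟩

/-- the number of an element -/
def vl (a : P) : ℕ := Fin.val (n := 13) a

/-- bit masks of the up-sets of the elements -/
def tbl : List ℕ :=
  [8089, 7802, 8164, 1544, 6160, 2592, 5184, 4736, 3328, 512, 1024, 2048, 4096]

/-- the order relation on numbers -/
def leB (i j : ℕ) : Bool := Nat.testBit (tbl.getD i 0) j

instance : PartialOrder P where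
  le a b := leB (vl a) (vl b) = true
  le_refl := by decide
  le_trans := by decide
  le_antisymm := by decide

instance : DecidableRel (fun a b : P => a ≤ b) := fun a b =>
  inferInstanceAs (Decidable (leB (vl a) (vl b) = true))

/-- bit masks of the down-sets of the elements -/
def dtbl : List ℕ :=
  [1, 2, 4, 11, 19, 38, 70, 133, 261, 687, 1359, 2359, 4311]

/-- the bit mask of the possible images of `x`, given the images of some elements -/
def cand (x : ℕ) : List (ℕ × ℕ) → ℕ
  | [] => 8191
  | p :: l =>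
    if leB p.1 x then Nat.land (tbl.getD p.2 0) (cand x l)
    else if leB x p.1 then Nat.land (dtbl.getD p.2 0) (cand x l)
    else cand x l

/-- search for an order-preserving map without fixed points -/
def srch : List ℕ → List (ℕ × ℕ) → Bool
  | [], _ => true
  | x :: xs, asg =>
    match cand x asg with
    | 0 => false
    | m + 1 => (List.range 13).any fun y =>
        Nat.testBit (m + 1) y && (!(y == x) && srch xs ((x, y) :: asg))

lemma dtbl_spec : ∀ i < 13, ∀ j < 13, Nat.testBit (dtbl.getD j 0) i = leB i j := by decide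

lemma cand_spec (f : ℕ → ℕ) (hlt : ∀ x < 13, f x < 13)
    (hf : ∀ x < 13, ∀ y < 13, leB x y = true → leB (f x) (f y) = true) (x : ℕ) (hx : x < 13) :
    ∀ asg : List (ℕ × ℕ), (∀ p ∈ asg, p.1 < 13 ∧ p.2 = f p.1) →
      Nat.testBit (cand x asg) (f x) = true := by
  intro asg
  induction asg with
  | nil =>
    intro _
    have h : ∀ y < 13, Nat.testBit 8191 y = true := by decide
    exact h _ (hlt x hx)
  | cons p l ih =>
    intro h
    have ih := ih fun q hq => h q (List.mem_cons_of_mem _ hq)
    obtain ⟨h1, h2⟩ := h p (by simp)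
    rw [cand]
    split_ifs with c1 c2
    · show Nat.testBit (_ &&& _) _ = true
      rw [Nat.testBit_and, ih, Bool.and_true, h2]
      exact hf _ h1 _ hx c1
    · show Nat.testBit (_ &&& _) _ = true
      rw [Nat.testBit_and, ih, Bool.and_true, h2, dtbl_spec _ (hlt x hx) _ (hlt _ h1)]
      exact hf _ hx _ h1 c2
    · exact ih

lemma srch_sound (f : ℕ → ℕ) (hlt : ∀ x < 13, f x < 13)
    (hf : ∀ x < 13, ∀ y < 13, leB x y = true → leB (f x) (f y) = true)
    (hne : ∀ x < 13, f x ≠ x) :
    ∀ (xs : List ℕ) (asg : List (ℕ × ℕ)), (∀ x ∈ xs, x < 13) →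
      (∀ p ∈ asg, p.1 < 13 ∧ p.2 = f p.1) → srch xs asg = true := by
  intro xs
  induction xs with
  | nil => intro asg _ _; rfl
  | cons x xs ih =>
    intro asg hxs hasg
    have hx : x < 13 := hxs x (by simp)
    rw [srch]
    have hc := cand_spec f hlt hf x hx asg hasg
    rcases hm : cand x asg with _ | m
    · rw [hm] at hc
      simp at hc
    rw [hm] at hc
    rw [List.any_eq_true]
    refine ⟨f x, List.mem_range.2 (hlt x hx), ?_⟩
    rw [Bool.and_eq_true, Bool.and_eq_true]
    refine ⟨hc, ?_, ?_⟩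
    · simpa using hne x hx
    · apply ih
      · intro z hz; exact hxs z (by simp [hz])
      · intro p hp
        rcases List.mem_cons.1 hp with rfl | hp
        · exact ⟨hx, rfl⟩
        · exact hasg p hp

lemma srch_false : srch [12, 2, 7, 0, 9, 4, 1, 11, 5, 6, 10, 3, 8] [] = false := by
  decide +kernel

theorem fpp (f : P → P) (hf : Monotone f) : ∃ x, f x = x := by
  by_contra hno
  push Not at hno
  let g : ℕ → ℕ := fun x => if h : x < 13 then vl (f (⟨x, h⟩ : Fin 13)) else 0
  have hg : ∀ x (h : x < 13), g x = vl (f (⟨x, h⟩ : Fin 13)) := fun x h => dif_pos h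
  have := srch_sound g (fun x hx => by rw [hg x hx]; exact Fin.is_lt _)
    (fun x hx y hy hxy => by
      rw [hg x hx, hg y hy]
      have h : @LE.le P _ (⟨x, hx⟩ : Fin 13) (⟨y, hy⟩ : Fin 13) := hxy
      exact hf h)
    (fun x hx h => by
      rw [hg x hx] at h
      exact hno (⟨x, hx⟩ : Fin 13) (Fin.ext h))
    [12, 2, 7, 0, 9, 4, 1, 11, 5, 6, 10, 3, 8] [] (by decide) (by simp)
  rw [srch_false] at this
  exact Bool.false_ne_true this

/-- bit masks of the cocycle -/
def ctb : List ℕ :=
  [256, 6160, 3136, 0, 2, 2048, 4100, 0, 3073, 0, 260, 294, 66]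

/-- the cocycle -/
def coc (a b : P) : ZMod 2 := if Nat.testBit (ctb.getD (vl a) 0) (vl b) then 1 else 0

lemma coc_cocycle : ∀ x y z : P, (x ≤ y ∨ y ≤ x) → (y ≤ z ∨ z ≤ y) → (x ≤ z ∨ z ≤ x) →
    coc x y + coc y z = coc x z := by
  decide +kernel

theorem hasClass_P : (comparability P).HasClass := by
  have hR : ∀ x y : P, (comparability P).R x y ↔ (x ≤ y ∨ y ≤ x) := by
    intro x y
    constructor
    · rintro (h | h)
      · exact Or.inl (le_of_eq h)
      · exact h.2
    · intro h
      by_cases h' : x = y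
      · exact Or.inl h'
      · exact Or.inr ⟨h', h⟩
  refine ⟨coc, ?_, ?_⟩
  · intro x y z hxy hyz hxz
    exact coc_cocycle x y z ((hR x y).1 hxy) ((hR y z).1 hyz) ((hR x z).1 hxz)
  · rintro ⟨t, ht⟩
    have e1 := ht (0 : Fin 13) (3 : Fin 13) ((hR _ _).2 (Or.inl rfl))
    have e2 := ht (3 : Fin 13) (1 : Fin 13) ((hR _ _).2 (Or.inr rfl))
    have e3 := ht (1 : Fin 13) (4 : Fin 13) ((hR _ _).2 (Or.inl rfl))
    have e4 := ht (4 : Fin 13) (0 : Fin 13) ((hR _ _).2 (Or.inr rfl))
    have c1 : coc (0 : Fin 13) (3 : Fin 13) + coc (3 : Fin 13) (1 : Fin 13) +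
        coc (1 : Fin 13) (4 : Fin 13) + coc (4 : Fin 13) (0 : Fin 13) = 1 := by decide
    rw [e1, e2, e3, e4] at c1
    have two : ∀ a b c d : ZMod 2, a + b + (b + c) + (c + d) + (d + a) = 0 := by decide
    rw [two] at c1
    exact absurd c1 (by decide)

/-- There is a finite ordered set with the fixed point property such that every iterated clique
graph of its comparability graph has at least two vertices. -/
theorem result : ∃ (P : Type) (_ : Fintype P) (_ : PartialOrder P), Nonempty P ∧
    (∀ f : P → P, Monotone f → ∃ x, f x = x) ∧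
      ∀ n : ℕ, Nontrivial (K^[n] (comparability P)).V :=
  ⟨P, inferInstance, inferInstance, inferInstance, fpp,
    fun n => HasClass.nontrivial (HasClass.iterate hasClass_P n)⟩

end Pool.Agent.Results.MP_c7efa6_co.FixedPointNotCollapsing
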